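import Pool.Agent.helper88.HT.Spec

/-!
Row ht:DP: the dynamic programming over the syndromes.
-/

set_option autoImplicit false

namespace Pool.Agent.helper88.HT

open Pool.Agent.helper38.Neg Pool.Agent.helper55.NT

lemma DP_syn {n k : ℕ} (H : Fin (n + 1) → Gk k) (y : Fin (n + 1) → Bool) :
    syn H y = syn (fun i => H (Fin.castSucc i)) (fun i => y (Fin.castSucc i)) +
      (if y (Fin.last n) = true then H (Fin.last n) else 0) := by
  unfold syn
  rw [Fin.sum_univ_castSucc]

lemma DP_Al {n : ℕ} (p q y : Fin (n + 1) → Bool) :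
    Al p q y ↔ Al (fun i => p (Fin.castSucc i)) (fun i => q (Fin.castSucc i))
        (fun i => y (Fin.castSucc i)) ∧
      (y (Fin.last n) = true → p (Fin.last n) = true) ∧
      (y (Fin.last n) = false → q (Fin.last n) = true) := by
  constructor
  · intro h
    exact ⟨fun i => h (Fin.castSucc i), h (Fin.last n)⟩
  · rintro ⟨h1, h2⟩ i
    refine Fin.lastCases ?_ (fun j => ?_) i
    · exact h2
    · exact h1 j

lemma DP_step {n k : ℕ} (H : Fin (n + 1) → Gk k) (p q : Fin (n + 1) → Bool) (σ : Gk k) :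
    (∃ y, Al p q y ∧ syn H y = σ) ↔
      ((∃ y, Al (fun i => p (Fin.castSucc i)) (fun i => q (Fin.castSucc i)) y ∧
          syn (fun i => H (Fin.castSucc i)) y = σ) ∧ q (Fin.last n) = true) ∨
      ((∃ y, Al (fun i => p (Fin.castSucc i)) (fun i => q (Fin.castSucc i)) y ∧
          syn (fun i => H (Fin.castSucc i)) y = σ - H (Fin.last n)) ∧
        p (Fin.last n) = true) := by
  constructor
  · rintro ⟨y, hy, hs⟩
    rw [DP_syn] at hs
    rw [DP_Al] at hy
    obtain ⟨h1, h2, h3⟩ := hy
    cases hb : y (Fin.last n)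
    · left
      refine ⟨⟨_, h1, ?_⟩, h3 hb⟩
      rw [← hs, hb]
      simp
    · right
      refine ⟨⟨_, h1, ?_⟩, h2 hb⟩
      rw [← hs, hb]
      simp
  · rintro (⟨⟨y, hy, hs⟩, hq⟩ | ⟨⟨y, hy, hs⟩, hp⟩)
    · refine ⟨Fin.snoc (α := fun _ => Bool) y false, ?_, ?_⟩
      · rw [DP_Al]
        simp only [Fin.snoc_castSucc, Fin.snoc_last]
        exact ⟨hy, fun h => absurd h (by simp), fun _ => hq⟩
      · rw [DP_syn]
        simp only [Fin.snoc_castSucc, Fin.snoc_last]
        rw [hs]
        simp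
    · refine ⟨Fin.snoc (α := fun _ => Bool) y true, ?_, ?_⟩
      · rw [DP_Al]
        simp only [Fin.snoc_castSucc, Fin.snoc_last]
        exact ⟨hy, fun _ => hp, fun h => absurd h (by simp)⟩
      · rw [DP_syn]
        simp only [Fin.snoc_castSucc, Fin.snoc_last]
        rw [hs]
        simp

lemma DP_three {m : ℕ} {F : Set (Fn m)} {u v u' v' : Fn m} (hu : u ∈ F) (hv : v ∈ F)
    (hu' : u' ∈ F) (hv' : v' ∈ F) :
    Rel F 3 0 {fun x => (u x && v x) || (u' x && v' x)} := by
  have h1 := Rel.and hu hv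
  have h2 : Rel (F ∪ {fun x => u x && v x}) 1 0 {fun x => u' x && v' x} :=
    Rel.and (Or.inl hu') (Or.inl hv')
  have h3 : Rel ((F ∪ {fun x => u x && v x}) ∪ {fun x => u' x && v' x}) 1 0
      {fun x => (u x && v x) || (u' x && v' x)} :=
    Rel.or (u := fun x => u x && v x) (v := fun x => u' x && v' x) (Or.inl (Or.inr rfl))
      (Or.inr rfl)
  exact (h1.trans' (h2.trans' h3)).mono le_rfl le_rfl (by omega) (by omega)

theorem DP : DP_stmt := by
  classical
  intro n m k
  induction n with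
  | zero =>
    intro H P Q
    have h := ((Rel.const (Set.range P ∪ Set.range Q) true).union
      (Rel.const (Set.range P ∪ Set.range Q) false))
    refine h.mono le_rfl ?_ (by omega) le_rfl
    rintro f ⟨σ, hσ⟩
    by_cases hs : (0 : Gk k) = σ
    · left
      refine Set.mem_singleton_iff.2 (funext fun x => ?_)
      rw [hσ x]
      exact ⟨fun i => true, fun i => i.elim0, by simpa [syn] using hs⟩
    · right
      refine Set.mem_singleton_iff.2 (funext fun x => ?_)
      rw [← Bool.not_eq_true, hσ x]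
      rintro ⟨y, -, hy⟩
      exact hs (by simpa [syn] using hy)
  | succ n ih =>
    intro H P Q
    have h1 := ih (fun i => H (Fin.castSucc i)) (fun i => P (Fin.castSucc i))
      (fun i => Q (Fin.castSucc i))
    set G : Set (Fn m) := {h | ∃ σ, ∀ x, h x = true ↔ ∃ y, Al (fun i => P (Fin.castSucc i) x)
      (fun i => Q (Fin.castSucc i) x) y ∧ syn (fun i => H (Fin.castSucc i)) y = σ} with hG
    have h1' : Rel (Set.range P ∪ Set.range Q) (3 * n * 2 ^ (k + 1) + 2) 0 G := by
      refine h1.mono ?_ le_rfl le_rfl le_rfl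
      rintro f (⟨i, rfl⟩ | ⟨i, rfl⟩)
      · exact Or.inl ⟨Fin.castSucc i, rfl⟩
      · exact Or.inr ⟨Fin.castSucc i, rfl⟩
    let w : Gk k → Fn m := fun σ x => decide (∃ y, Al (fun i => P (Fin.castSucc i) x)
      (fun i => Q (Fin.castSucc i) x) y ∧ syn (fun i => H (Fin.castSucc i)) y = σ)
    have hw : ∀ σ, w σ ∈ G := by
      intro σ
      refine ⟨σ, fun x => ?_⟩
      simp only [w, decide_eq_true_eq]
    have h2 := Rel.biUnion (F := (Set.range P ∪ Set.range Q) ∪ G) (m := 3)
      (Finset.univ : Finset (Gk k))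
      (fun σ => {fun x => (w σ x && Q (Fin.last n) x) ||
        (w (σ - H (Fin.last n)) x && P (Fin.last n) x)})
      (fun σ _ => DP_three (Or.inr (hw σ)) (Or.inl (Or.inr ⟨Fin.last n, rfl⟩))
        (Or.inr (hw _)) (Or.inl (Or.inl ⟨Fin.last n, rfl⟩)))
    refine (h1'.trans' h2).mono le_rfl ?_ ?_ le_rfl
    · rintro f ⟨σ, hσ⟩
      refine Set.mem_iUnion₂.2 ⟨σ, Finset.mem_univ _, ?_⟩
      refine Set.mem_singleton_iff.2 (funext fun x => ?_)
      rw [Bool.eq_iff_iff, hσ x, DP_step]
      simp only [w, Bool.or_eq_true, Bool.and_eq_true, decide_eq_true_eq]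
    · have hc : (Finset.univ : Finset (Gk k)).card = 2 ^ (k + 1) := by
        rw [Finset.card_univ, Fintype.card_fun, Fintype.card_fin, ZMod.card]
      rw [hc]
      have : 3 * (n + 1) * 2 ^ (k + 1) = 3 * n * 2 ^ (k + 1) + 2 ^ (k + 1) * 3 := by ring
      omega

end Pool.Agent.helper88.HT
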